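import Pool.Agent.Y469.AC.Main

/-!
# MP_bf1c32_co: additive cubes over subsets of torsion-free abelian groups

Additive cubes are avoidable over a set of elements of a torsion-free abelian group (for instance
over a set of complex numbers) if and only if the set has at least three elements.
-/

set_option autoImplicit false

namespace Pool.Agent.Results.MP_bf1c32_co.TorsionFreeAlphabets

open Finset Pool.Agent.Y469.AC

theorem restrict {G : Type*} [AddCommMonoid G] (k : ℕ) (v : ℤ → G) (h : ¬ HasPowerZ k v) :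
    ¬ HasPower k (fun n : ℕ => v n) := by
  rintro ⟨p, L, hL, hp⟩
  refine h ⟨p, L, hL, fun i hi => ?_⟩
  have h1 := hp i hi
  simpa using h1

theorem exists_of_three {G : Type*} {A : Set G} (h : 3 ≤ A.encard) :
    ∃ x ∈ A, ∃ y ∈ A, ∃ z ∈ A, x ≠ y ∧ x ≠ z ∧ y ≠ z := by
  obtain ⟨B, hBA, hB⟩ := Set.exists_subset_encard_eq h
  obtain ⟨x, y, z, hxy, hxz, hyz, rfl⟩ := Set.encard_eq_three.1 hB
  exact ⟨x, hBA (by simp), y, hBA (by simp), z, hBA (by simp), hxy, hxz, hyz⟩

theorem three_of_word {G : Type*} [AddCommGroup G] {A : Set G} (w : ℕ → G) (hw : ∀ n, w n ∈ A)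
    (h : ¬ HasPower 3 w) : 3 ≤ A.encard := by
  by_contra hcon
  push Not at hcon
  have h2 : A.encard ≤ 2 := by
    have h3 : A.encard < 2 + 1 := by
      calc A.encard < 3 := hcon
        _ = 2 + 1 := by norm_num
    exact ENat.lt_add_one_iff (by simp) |>.1 h3
  have hab : ∃ a b : G, ∀ x ∈ A, x = a ∨ x = b := by
    have hfin : A.Finite := Set.finite_of_encard_le_coe (k := 2) (by exact_mod_cast h2)
    obtain ⟨s, rfl⟩ := hfin.exists_finset_coe
    rw [Set.encard_coe_eq_coe_finsetCard] at h2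
    have h3 : s.card ≤ 2 := by exact_mod_cast h2
    have hpos : 0 < s.card := Finset.card_pos.2 ⟨w 0, by simpa using hw 0⟩
    classical
    rcases (show s.card = 1 ∨ s.card = 2 by omega) with h1 | h1
    · obtain ⟨a, rfl⟩ := Finset.card_eq_one.1 h1
      exact ⟨a, a, fun x hx => Or.inl (by simpa using hx)⟩
    · obtain ⟨a, b, _, rfl⟩ := Finset.card_eq_two.1 h1
      exact ⟨a, b, fun x hx => by simpa using hx⟩
  obtain ⟨a, b, hab⟩ := hab
  obtain ⟨p, L, hL, -, hp⟩ := two a b w (fun n _ => hab _ (hw n))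
  exact h ⟨p, L, hL, hp⟩

theorem lift_set {G H : Type} [AddCommGroup G] [AddCommGroup H] (hH : TorFree H) (φ : G →+ H)
    (A : Set G) (h : 3 ≤ (φ '' A).encard) :
    ∃ w : ℤ → G, (∀ n, w n ∈ A) ∧ ¬ HasPowerZ 3 w := by
  obtain ⟨x', hx', y', hy', z', hz', h1, h2, h3⟩ := exists_of_three h
  obtain ⟨x, hx, rfl⟩ := hx'
  obtain ⟨y, hy, rfl⟩ := hy'
  obtain ⟨z, hz, rfl⟩ := hz'
  obtain ⟨w, hw, hc⟩ := lift hH φ x y z h1 h2 h3
  obtain ⟨v, hv, hc'⟩ := twoSided x y z 3 w hw hc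
  refine ⟨v, fun n => ?_, hc'⟩
  rcases hv n with h | h | h <;> rw [h] <;> assumption

theorem torFree_of_field (K : Type*) [Field K] [CharZero K] : TorFree K := by
  intro n x h
  rw [zsmul_eq_mul] at h
  rcases mul_eq_zero.1 h with h | h
  · exact Or.inl (by exact_mod_cast h)
  · exact Or.inr h

theorem torFree_int : TorFree ℤ := by
  intro n x h
  rw [smul_eq_mul] at h
  exact mul_eq_zero.1 h

theorem result :
    -- (1) complete answer for torsion-free abelian groups, one-sided and two-sided words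
    (∀ (G : Type) [AddCommGroup G], TorFree G → ∀ A : Set G,
      ((∃ w : ℕ → G, (∀ n, w n ∈ A) ∧ ¬ HasPower 3 w) ↔ 3 ≤ A.encard) ∧
      ((∃ w : ℤ → G, (∀ n, w n ∈ A) ∧ ¬ HasPowerZ 3 w) ↔ 3 ≤ A.encard)) ∧
    -- (2) in particular all sets of three integers, and all sets of complex numbers
    (∀ A : Set ℤ, A.encard = 3 → ∃ w : ℕ → ℤ, (∀ n, w n ∈ A) ∧ ¬ HasPower 3 w) ∧
    (∀ A : Set ℂ, (∃ w : ℕ → ℂ, (∀ n, w n ∈ A) ∧ ¬ HasPower 3 w) ↔ 3 ≤ A.encard) ∧
    -- (3) any abelian group: three values of a homomorphism to a torsion-free group suffice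
    (∀ (G H : Type) [AddCommGroup G] [AddCommGroup H], TorFree H → ∀ (φ : G →+ H) (A : Set G),
      3 ≤ (φ '' A).encard → ∃ w : ℤ → G, (∀ n, w n ∈ A) ∧ ¬ HasPowerZ 3 w) ∧
    -- (4) any abelian group: if the differences generate a finite group, nothing is avoidable
    (∀ (G : Type) [AddCommGroup G] (A : Set G),
      (AddSubgroup.closure {d | ∃ a ∈ A, ∃ b ∈ A, d = a - b} : Set G).Finite →
      ∀ w : ℕ → G, (∀ n, w n ∈ A) → ∀ k, HasPower k w) ∧
    -- (5) any abelian group: every word of length ten over two letters has an additive cube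
    (∀ (G : Type) [AddCommGroup G] (a b : G) (w : ℕ → G), (∀ n < 10, w n = a ∨ w n = b) →
      ∃ p L : ℕ, 0 < L ∧ p + 3 * L ≤ 10 ∧
        ∀ i < 3, ∑ t ∈ range L, w (p + i * L + t) = ∑ t ∈ range L, w (p + t)) := by
  have h1 : ∀ (G : Type) [AddCommGroup G], TorFree G → ∀ A : Set G, 3 ≤ A.encard →
      ∃ w : ℤ → G, (∀ n, w n ∈ A) ∧ ¬ HasPowerZ 3 w := by
    intro G _ hG A hA
    exact lift_set hG (AddMonoidHom.id G) A (by simpa using hA)
  have key : ∀ (G : Type) [AddCommGroup G], TorFree G → ∀ A : Set G,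
      ((∃ w : ℕ → G, (∀ n, w n ∈ A) ∧ ¬ HasPower 3 w) ↔ 3 ≤ A.encard) ∧
      ((∃ w : ℤ → G, (∀ n, w n ∈ A) ∧ ¬ HasPowerZ 3 w) ↔ 3 ≤ A.encard) := by
    intro G _ hG A
    refine ⟨⟨?_, ?_⟩, ⟨?_, h1 G hG A⟩⟩
    · rintro ⟨w, hw, hc⟩
      exact three_of_word w hw hc
    · intro hA
      obtain ⟨w, hw, hc⟩ := h1 G hG A hA
      exact ⟨fun n => w n, fun n => hw n, restrict 3 w hc⟩
    · rintro ⟨w, hw, hc⟩
      exact three_of_word (fun n : ℕ => w n) (fun n => hw n) (restrict 3 w hc)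
  refine ⟨key, fun A hA => ((key ℤ torFree_int A).1.2 hA.ge),
    fun A => (key ℂ (torFree_of_field ℂ) A).1, fun G H _ _ hH φ A h => lift_set hH φ A h, ?_, ?_⟩
  · intro G _ A hA w hw k
    exact vdw _ hA w (fun m n => AddSubgroup.subset_closure ⟨_, hw m, _, hw n, rfl⟩) k
  · intro G _ a b w hw
    exact two a b w hw

end Pool.Agent.Results.MP_bf1c32_co.TorsionFreeAlphabets
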